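import Pool.Agent.H13.DEV.Targets
import Pool.Agent.H34.N6.LibC

/-!
# Block E: finiteness of sets of places (row EFIN)
-/

set_option autoImplicit false

open Polynomial NumberField IsDedekindDomain Pool.Agent.H32.QC Pool.Agent.H34.N6
  Pool.Agent.H13.DEV

namespace Pool.Agent.H43.N6E

theorem norm_ic_lt_one_iff {K : Type} [Field K] [NumberField K] (v : FPl K) (x : K) :
    ‖ic v x‖ < 1 ↔ v.valuation K x < 1 := by
  have h1 : ‖ic v x‖ < 1 ↔ Valued.v (ic v x) < 1 := Valued.toNormedField.norm_lt_one_iff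
  have h : Valued.v (ic v x) = v.valuation K x :=
    HeightOneSpectrum.valuedAdicCompletion_eq_valuation' v x
  rw [h1, h]

theorem norm_ic_eq_one_iff {K : Type} [Field K] [NumberField K] (v : FPl K) (x : K) :
    ‖ic v x‖ = 1 ↔ v.valuation K x = 1 := by
  have h1 := norm_ic_le_one_iff v x
  have h2 := norm_ic_lt_one_iff v x
  constructor
  · intro h
    apply le_antisymm (h1.1 h.le)
    by_contra h3
    exact (h2.2 (not_le.1 h3)).ne h
  · intro h
    apply le_antisymm (h1.2 h.le)
    by_contra h3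
    exact (h2.1 (not_le.1 h3)).ne h

theorem norm_fin {K : Type} [Field K] [NumberField K] (x : K) (hx : x ≠ 0) :
    {w : FPl K | ‖ic w x‖ ≠ 1}.Finite := by
  apply (Pool.Agent.H23.QCF.supp_fin hx).subset
  intro w hw h
  exact hw ((norm_ic_eq_one_iff w x).2 h)

theorem mem_fin {K : Type} [Field K] [NumberField K] (a : 𝓞 K) (ha : a ≠ 0) :
    {w : FPl K | a ∈ w.asIdeal}.Finite := by
  have h0 : (algebraMap (𝓞 K) K a) ≠ 0 := by
    intro h
    exact ha ((map_eq_zero_iff _ (FaithfulSMul.algebraMap_injective (𝓞 K) K)).1 h)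
  apply (norm_fin (algebraMap (𝓞 K) K a) h0).subset
  intro w hw h
  rw [norm_ic_eq_one_iff] at h
  have h1 := (w.valuation_lt_one_iff_mem (K := K) a).2 hw
  exact h1.ne h

theorem pf_FIN : T_FIN := by
  intro k L _ _ _ _ _
  refine ⟨?_, ?_, fun x hx => norm_fin x hx⟩
  · intro v
    rcases v with v | φ
    · obtain ⟨a, ha, ha0⟩ : ∃ a ∈ v.asIdeal, a ≠ 0 := Submodule.exists_mem_ne_zero_of_ne_bot v.ne_bot
      have h1 : (algebraMap (𝓞 k) (𝓞 L) a) ≠ 0 := by
        intro h
        exact ha0 ((map_eq_zero_iff _ (FaithfulSMul.algebraMap_injective (𝓞 k) (𝓞 L))).1 h)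
      apply ((mem_fin _ h1).image (Sum.inl : FPl L → Pl L)).subset
      intro w hw
      rcases w with w | ψ
      · have hw2 : w.under (𝓞 k) = v := Sum.inl_injective hw
        refine ⟨w, ?_, rfl⟩
        have h2 : a ∈ (w.under (𝓞 k)).asIdeal := by
          rw [hw2]
          exact ha
        exact h2
      · exact absurd hw (by simp [bel])
    · apply ((Set.finite_univ (α := L →+* ℝ)).image (Sum.inr : (L →+* ℝ) → Pl L)).subset
      intro w hw
      rcases w with w | ψ
      · exact absurd hw (by simp [bel])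
      · exact ⟨ψ, Set.mem_univ _, rfl⟩
  · intro p hp
    exact mem_fin _ (Nat.cast_ne_zero.2 hp.ne_zero)

end Pool.Agent.H43.N6E
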