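import Pool.Agent.H13.DEV.Targets
import Pool.Agent.H43.N6E.EFIN
import Pool.Agent.H97.QCF.KODD
import Pool.Agent.H23.QCF.LocalAll

/-!
# Block E: the symbols above the auxiliary place (row EFIB)
-/

set_option autoImplicit false

open Polynomial NumberField IsDedekindDomain Pool.Agent.H32.QC Pool.Agent.H34.N6
  Pool.Agent.H13.DEV

namespace Pool.Agent.H43.N6E

section

variable {k L : Type} [Field k] [NumberField k] [Field L] [NumberField L] [Algebra k L]

theorem coeff_le (w : FPl L) {Q : k[X]} (hQ : Int (w.under (𝓞 k)) Q) (i : ℕ) :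
    w.valuation L (algebraMap k L (Q.coeff i)) ≤ 1 :=
  (norm_ic_le_one_iff w _).1 (norm_up_le w _ (hQ i))

theorem root_le (w : FPl L) {P : k[X]} (hP : P.Monic) (hI : Int (w.under (𝓞 k)) P) {e : L}
    (he : aeval e P = 0) : w.valuation L e ≤ 1 := by
  by_contra hcon
  rw [not_le] at hcon
  have h1 : aeval e P = ∑ i ∈ Finset.range (P.natDegree + 1),
      algebraMap k L (P.coeff i) * e ^ i := by
    rw [aeval_eq_sum_range]
    exact Finset.sum_congr rfl fun i _ => Algebra.smul_def _ _
  rw [he, Finset.sum_range_succ, hP.coeff_natDegree, map_one, one_mul] at h1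
  have h2 : e ^ P.natDegree = -∑ i ∈ Finset.range P.natDegree,
      algebraMap k L (P.coeff i) * e ^ i := by
    rw [eq_neg_iff_add_eq_zero, add_comm]
    exact h1.symm
  have h3 : w.valuation L (e ^ P.natDegree) < w.valuation L e ^ P.natDegree := by
    rw [h2, Valuation.map_neg]
    apply Valuation.map_sum_lt
    · exact pow_ne_zero _ (zero_lt_one.trans hcon).ne'
    · intro i hi
      rw [map_mul, map_pow]
      calc w.valuation L (algebraMap k L (P.coeff i)) * w.valuation L e ^ i
          ≤ 1 * w.valuation L e ^ i := by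
            gcongr
            exact coeff_le w hI i
        _ = w.valuation L e ^ i := one_mul _
        _ < w.valuation L e ^ P.natDegree :=
            pow_lt_pow_right₀ hcon (Finset.mem_range.1 hi)
  rw [map_pow] at h3
  exact lt_irrefl _ h3

theorem aeval_le (w : FPl L) {Q : k[X]} (hQ : Int (w.under (𝓞 k)) Q) {e : L}
    (he : w.valuation L e ≤ 1) : w.valuation L (aeval e Q) ≤ 1 := by
  rw [aeval_eq_sum_range]
  apply Valuation.map_sum_le
  intro i _
  rw [Algebra.smul_def, map_mul, map_pow]
  exact mul_le_one' (coeff_le w hQ i) (pow_le_one' he i)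

theorem disc_one (w : FPl L) {P D : k[X]} (hP : P.Monic) {e : L} (he : aeval e P = 0)
    (hG : GoodAt P D (w.under (𝓞 k))) : w.valuation L (aeval e D) = 1 := by
  have h1 := root_le w hP hG.intP he
  obtain ⟨a, b, -, hb, hab⟩ := hG.cop
  have h2 : aeval e b * aeval e D = 1 := by
    have h3 := congrArg (aeval e) hab
    rw [map_add, map_mul, map_mul, he, mul_zero, zero_add, map_one] at h3
    exact h3
  have h3 := congrArg (w.valuation L) h2
  rw [map_mul, map_one] at h3
  apply le_antisymm (aeval_le w hG.intD h1)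
  calc (1 : WithZero (Multiplicative ℤ)) = w.valuation L (aeval e b) *
        w.valuation L (aeval e D) := h3.symm
    _ ≤ 1 * w.valuation L (aeval e D) := by
        gcongr
        exact aeval_le w hb h1
    _ = w.valuation L (aeval e D) := one_mul _

theorem two_one (w : FPl L) {P D : k[X]} (hG : GoodAt P D (w.under (𝓞 k))) :
    w.valuation L 2 = 1 := by
  have h1 := norm_up_one w 2 hG.two
  rw [norm_ic_eq_one_iff, map_ofNat] at h1
  exact h1

theorem star_val (ws : FPl L) {N : ℕ} {G : k[X]} {e : L} (hS : Star e N ws G) :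
    ws.valuation L (aeval e G) = WithZero.exp (-1) := by
  obtain ⟨x, hx⟩ := ws.valuation_exists_uniformizer L
  have hx0 : x ≠ 0 := by
    intro h
    rw [h, map_zero] at hx
    exact WithZero.exp_ne_zero hx.symm
  have hx1 : ‖ic ws x‖ < 1 := by
    rw [norm_ic_lt_one_iff, hx]
    exact WithZero.exp_lt_exp.2 (by norm_num)
  have h1 := hS.mx (ic ws x) hx1
  have hx2 : 0 < ‖ic ws x‖ := norm_pos_iff.2 ((map_ne_zero (ic ws)).2 hx0)
  have ha : 0 < ‖ic ws (aeval e G)‖ := hx2.trans_le h1
  have ha0 : aeval e G ≠ 0 := by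
    intro h
    rw [h, map_zero, norm_zero] at ha
    exact lt_irrefl _ ha
  have h2 : ws.valuation L (x / aeval e G) ≤ 1 := by
    rw [← norm_ic_le_one_iff, map_div₀, norm_div]
    exact (div_le_one ha).2 h1
  have hv0 : ws.valuation L (aeval e G) ≠ 0 := (Valuation.ne_zero_iff _).2 ha0
  have hv : ws.valuation L (aeval e G) =
      WithZero.exp (WithZero.log (ws.valuation L (aeval e G))) := (WithZero.exp_log hv0).symm
  have h3 := (norm_ic_lt_one_iff ws (aeval e G)).1 hS.lt
  rw [map_div₀, div_le_one₀ (zero_lt_iff.2 hv0), hx, hv, WithZero.exp_le_exp] at h2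
  rw [hv, ← WithZero.exp_zero, WithZero.exp_lt_exp] at h3
  rw [hv]
  congr 1
  omega

end

theorem pf_FIB (_hFIN : T_FIN) (_hBEL : T_BEL) : T_FIB := by
  classical
  intro k L _ _ _ _ _ P D e ws N G hP hgen hgood hS hsq
  have he : aeval e P = 0 := by
    rw [← hgen.mp]
    exact minpoly.aeval k e
  have hUNE : Pool.Agent.H23.QCF.T_UNE :=
    Pool.Agent.H97.QCF.pf_UNE Pool.Agent.H23.QCF.LA.odd Pool.Agent.H23.QCF.LA.psg
  have hUNR : Pool.Agent.H23.QCF.T_UNR :=
    Pool.Agent.H97.QCF.pf_UNR Pool.Agent.H23.QCF.LA.odd Pool.Agent.H23.QCF.LA.psg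
  have hws : hs (Sum.inl ws) (aeval e G) (aeval e D) = -1 := by
    apply hUNR L ws _ _ (-1) 0 (two_one ws hgood) (star_val ws hS)
    · rw [WithZero.exp_zero]
      exact disc_one ws hP he hgood
    · exact ⟨-1, by norm_num⟩
    · exact ⟨0, by norm_num⟩
    · exact hsq
  rw [finprod_eq_single _ (Sum.inl ws : Pl L)]
  · rw [finprod_eq_if, if_pos, hws]
    rfl
  · intro w hw
    by_cases hb : bel (k := k) w = Sum.inl (ws.under (𝓞 k))
    · rw [finprod_eq_if, if_pos hb]
      rcases w with w | ψ
      · have hu : w.under (𝓞 k) = ws.under (𝓞 k) := Sum.inl_injective hb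
        have hne : w ≠ ws := fun h => hw (congrArg Sum.inl h)
        have hg2 : GoodAt P D (w.under (𝓞 k)) := by
          rw [hu]
          exact hgood
        apply hUNE L w _ _ 0 0 (two_one w hg2)
        · rw [WithZero.exp_zero, ← norm_ic_eq_one_iff]
          exact hS.oth w hu hne
        · rw [WithZero.exp_zero]
          exact disc_one w hP he hg2
        · exact ⟨0, by norm_num⟩
        · exact ⟨0, by norm_num⟩
      · exact absurd hb (by simp [bel])
    · rw [finprod_eq_if, if_neg hb]

end Pool.Agent.H43.N6E
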